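import Mathlib

/-!
# `MP_7ae2b6_co`: complete graphs with monochromatic cliques of every colour at every vertex

The conjecture `n_r(k) = 2 r (k - 1)` for all large `k` fails for `r = 3`: there is a
`3`-coloured `k`-enabling colouring of the complete graph on `6 k - 7` vertices for every `k ≥ 3`.

The colouring: six clusters of `k - 2` vertices (two for every colour, monochromatic inside) and
five extra vertices; all edges between two of these eleven parts have the same colour, given by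
the `11 × 11` table `T`.
-/

namespace Pool.Agent.Results.MP_7ae2b6_co.SixKMinusSeven

/-- An edge colouring `col` of the complete graph on `V` (the value on the diagonal of `Sym2 V`
plays no role) is `r`-coloured `k`-enabling: every vertex lies, for every colour, in a
monochromatic clique of that colour of size exactly `k`. -/
def Enabling {V : Type*} {r : ℕ} (k : ℕ) (col : Sym2 V → Fin r) : Prop :=
  ∀ (v : V) (c : Fin r), ∃ S : Finset V, v ∈ S ∧ S.card = k ∧
    ∀ x ∈ S, ∀ y ∈ S, x ≠ y → col s(x, y) = c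

/-- The orders `n ≥ 1` of complete graphs with an `r`-coloured `k`-enabling colouring. -/
def orders (r k : ℕ) : Set ℕ :=
  {n | 1 ≤ n ∧ ∃ col : Sym2 (Fin n) → Fin r, Enabling k col}

/-- `n_r(k)`, the smallest order of an `r`-coloured `k`-enabling colouring. -/
noncomputable def nMin (r k : ℕ) : ℕ := sInf (orders r k)

/-- The table of colours between the eleven parts. -/
def T : Fin 11 → Fin 11 → Fin 3 :=
  ![![0, 0, 1, 0, 0, 2, 0, 2, 0, 1, 0],
    ![0, 0, 0, 1, 2, 0, 2, 0, 0, 0, 1],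
    ![1, 0, 1, 1, 2, 1, 1, 0, 1, 1, 2],
    ![0, 1, 1, 1, 1, 2, 0, 1, 2, 0, 1],
    ![0, 2, 2, 1, 2, 2, 2, 1, 0, 2, 2],
    ![2, 0, 1, 2, 2, 2, 1, 2, 2, 0, 0],
    ![0, 2, 1, 0, 2, 1, 0, 0, 1, 2, 0],
    ![2, 0, 0, 1, 1, 2, 0, 0, 0, 0, 0],
    ![0, 0, 1, 2, 0, 2, 1, 0, 0, 0, 0],
    ![1, 0, 1, 0, 2, 0, 2, 0, 0, 0, 0],
    ![0, 1, 2, 1, 2, 0, 0, 0, 0, 0, 0]]

theorem T_symm : ∀ a b, T a b = T b a := by decide +kernel

theorem T_wit : ∀ (t : Fin 11) (c : Fin 3), ∃ q : Fin 6, ∃ a b : Fin 11,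
    a ≠ b ∧ a ≠ Fin.castLE (by norm_num) q ∧ b ≠ Fin.castLE (by norm_num) q ∧
    T (Fin.castLE (by norm_num) q) (Fin.castLE (by norm_num) q) = c ∧
    T (Fin.castLE (by norm_num) q) a = c ∧ T (Fin.castLE (by norm_num) q) b = c ∧
    T a b = c ∧ (t = Fin.castLE (by norm_num) q ∨ t = a ∨ t = b) := by
  decide +kernel

/-- The vertex set: six clusters of `m` vertices and five extra vertices. -/
abbrev Vt (m : ℕ) : Type := (Fin 6 × Fin m) ⊕ Fin 5

/-- The part of a vertex. -/
def part {m : ℕ} : Vt m → Fin 11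
  | Sum.inl p => Fin.castLE (by norm_num) p.1
  | Sum.inr z => Fin.natAdd 6 z

theorem part_surj {m : ℕ} (hm : 1 ≤ m) (t : Fin 11) : ∃ x : Vt m, part x = t := by
  by_cases h : t.1 < 6
  · exact ⟨Sum.inl (⟨t.1, h⟩, ⟨0, hm⟩), by ext; simp [part]⟩
  · refine ⟨Sum.inr ⟨t.1 - 6, by have := t.2; omega⟩, ?_⟩
    ext
    simp only [part, Fin.val_natAdd]
    omega

/-- The colouring. -/
def col (m : ℕ) : Sym2 (Vt m) → Fin 3 :=
  Sym2.lift ⟨fun x y => T (part x) (part y), fun _ _ => T_symm _ _⟩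

theorem col_mk {m : ℕ} (x y : Vt m) : col m s(x, y) = T (part x) (part y) := rfl

theorem enabling_col {m : ℕ} (hm : 1 ≤ m) : Enabling (m + 2) (col m) := by
  classical
  intro v c
  obtain ⟨q, a, b, hab, haq, hbq, hqq, hqa, hqb, hTab, ht⟩ := T_wit (part v) c
  have pick : ∀ t : Fin 11, ∃ x : Vt m, part x = t ∧ (part v = t → x = v) := by
    intro t
    by_cases h : part v = t
    · exact ⟨v, h, fun _ => rfl⟩
    · obtain ⟨x, hx⟩ := part_surj hm t
      exact ⟨x, hx, fun h' => absurd h' h⟩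
  obtain ⟨xa, hxa, hva⟩ := pick a
  obtain ⟨xb, hxb, hvb⟩ := pick b
  set K : Finset (Vt m) := Finset.univ.image (fun j : Fin m => Sum.inl (q, j)) with hK
  have hKpart : ∀ x ∈ K, part x = Fin.castLE (by norm_num) q := by
    intro x hx
    rw [hK, Finset.mem_image] at hx
    obtain ⟨j, _, rfl⟩ := hx
    rfl
  have hKcard : K.card = m := by
    rw [hK, Finset.card_image_of_injective _ (fun i j h => by simpa using h)]
    simp
  have hb' : xb ∉ K := fun h => hbq (by rw [← hxb]; exact hKpart _ h)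
  have ha' : xa ∉ insert xb K := by
    intro h
    rcases Finset.mem_insert.1 h with h | h
    · exact hab (by rw [← hxa, ← hxb, h])
    · exact haq (by rw [← hxa]; exact hKpart _ h)
  refine ⟨insert xa (insert xb K), ?_, ?_, ?_⟩
  · rcases ht with h | h | h
    · -- `v` lies in the cluster `q`
      have : v ∈ K := by
        rcases v with ⟨i, j⟩ | z
        · have hi : i = q := by
            have := congrArg Fin.val h
            ext
            simpa [part] using this
          subst hi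
          rw [hK, Finset.mem_image]
          exact ⟨j, Finset.mem_univ _, rfl⟩
        · exfalso
          have := congrArg Fin.val h
          have hq := q.2
          simp only [part, Fin.val_natAdd, Fin.val_castLE] at this
          omega
      simp [this]
    · rw [hva h]; simp
    · rw [hvb h]; simp
  · rw [Finset.card_insert_of_notMem ha', Finset.card_insert_of_notMem hb', hKcard]
  · intro x hx y hy hxy
    rw [col_mk]
    have cases : ∀ z ∈ insert xa (insert xb K), z = xa ∨ z = xb ∨ z ∈ K := by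
      intro z hz
      simpa [Finset.mem_insert] using hz
    rcases cases x hx with hx1 | hx1 | hx1 <;> rcases cases y hy with hy1 | hy1 | hy1
    · exact absurd (hx1.trans hy1.symm) hxy
    · rw [hx1, hy1, hxa, hxb]; exact hTab
    · rw [hx1, hxa, hKpart y hy1, T_symm]; exact hqa
    · rw [hx1, hy1, hxa, hxb, T_symm]; exact hTab
    · exact absurd (hx1.trans hy1.symm) hxy
    · rw [hx1, hxb, hKpart y hy1, T_symm]; exact hqb
    · rw [hy1, hxa, hKpart x hx1]; exact hqa
    · rw [hy1, hxb, hKpart x hx1]; exact hqb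
    · rw [hKpart x hx1, hKpart y hy1]; exact hqq

theorem enabling_transport {V W : Type*} (e : V ≃ W) {r k : ℕ} {c : Sym2 V → Fin r}
    (h : Enabling k c) : Enabling k (fun p : Sym2 W => c (p.map e.symm)) := by
  classical
  intro v i
  obtain ⟨S, hv, hS, hmono⟩ := h (e.symm v) i
  refine ⟨S.map e.toEmbedding, ?_, by simpa using hS, ?_⟩
  · rw [Finset.mem_map]
    exact ⟨e.symm v, hv, by simp⟩
  · intro x hx y hy hxy
    rw [Finset.mem_map] at hx hy
    obtain ⟨x', hx', rfl⟩ := hx
    obtain ⟨y', hy', rfl⟩ := hy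
    have : x' ≠ y' := fun h => hxy (by rw [h])
    simpa using hmono x' hx' y' hy' this

theorem mem_orders (k : ℕ) (hk : 3 ≤ k) : 6 * k - 7 ∈ orders 3 k := by
  obtain ⟨m, rfl⟩ : ∃ m, k = m + 2 := ⟨k - 2, by omega⟩
  have hm : 1 ≤ m := by omega
  have hcard : Fintype.card (Vt m) = 6 * (m + 2) - 7 := by
    simp only [Fintype.card_sum, Fintype.card_prod, Fintype.card_fin]
    omega
  refine ⟨by omega, _, enabling_transport (Fintype.equivFinOfCardEq hcard) (enabling_col hm)⟩

/-- For every `k ≥ 3` the complete graph on `6 k - 7` vertices has a `3`-coloured `k`-enabling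
colouring, so `n_3(k) ≤ 6 k - 7 < 2 · 3 · (k - 1)` for every `k ≥ 3`; hence the assertion of Q1
(for every `r ≥ 2` there is `k₀ ≥ r` with `n_r(k) = 2 r (k - 1)` for all `k ≥ k₀`) is false. -/
theorem result :
    (∀ k : ℕ, 3 ≤ k → (∃ c : Sym2 (Fin (6 * k - 7)) → Fin 3, Enabling k c) ∧
      nMin 3 k ≤ 6 * k - 7 ∧ nMin 3 k < 2 * 3 * (k - 1)) ∧
    ¬ (∀ r : ℕ, 2 ≤ r → ∃ k₀ : ℕ, r ≤ k₀ ∧ ∀ k : ℕ, k₀ ≤ k → nMin r k = 2 * r * (k - 1)) := by
  have key : ∀ k : ℕ, 3 ≤ k → nMin 3 k ≤ 6 * k - 7 := fun k hk => Nat.sInf_le (mem_orders k hk)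
  refine ⟨fun k hk => ⟨(mem_orders k hk).2, key k hk, ?_⟩, ?_⟩
  · have := key k hk
    omega
  · intro h
    obtain ⟨k₀, hk₀, hk⟩ := h 3 (by norm_num)
    have h1 := hk k₀ le_rfl
    have h2 := key k₀ hk₀
    omega

end Pool.Agent.Results.MP_7ae2b6_co.SixKMinusSeven
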